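import Pool.Agent.L0h58.HR.Pop
import Pool.Agent.L0h58.HM.Num3
import Pool.Agent.L0h32.LT2.CoComb

/-!
# Assembly, with explicit dependence on the time
-/

set_option autoImplicit false

namespace Pool.Agent.L0h58.HR

open Finset Polynomial Pool.Agent.L0h32.LT Pool.Agent.L0h32.LT2 Pool.Agent.L0h58.HN
  Pool.Agent.L0h58.HM

theorem final_num2 {n D K r R b e E L s W : ℕ} (hD1 : 1 ≤ D) (hn0 : 0 < n)
    (hn : 384 * D * (L + s + 1) ≤ n) (hK2 : n < 48 * D * (K + 1)) (hr3 : r ≤ R + 1)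
    (hW : 384 * D * (R + 3) ≤ W)
    (hb1 : 2048 * D ≤ 2 ^ b) (hb2 : 6144 * b ≤ E) (he2 : E * D * e ≤ 16 * n)
    (hcore : (K : ℝ) ≤ L + s + (r + 2) * (1 / W * n) + b * e + 4 * n / 2 ^ b) : False := by
  have hDr : (0 : ℝ) < D := by exact_mod_cast hD1
  have hnr : (0 : ℝ) < n := by exact_mod_cast hn0
  have hu1 : (L : ℝ) + s + 1 ≤ n / (384 * D) := by
    rw [le_div_iff₀ (by positivity)]
    have : ((384 * D * (L + s + 1) : ℕ) : ℝ) ≤ n := by exact_mod_cast hn
    push_cast at this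
    linarith
  have hu2 : 8 * ((n : ℝ) / (384 * D)) < K + 1 := by
    have h1 : (n : ℝ) < 48 * D * (K + 1) := by exact_mod_cast hK2
    rw [← mul_div_assoc, div_lt_iff₀ (by positivity)]
    linarith
  have hu3 : ((r : ℝ) + 2) * (1 / W * n) ≤ n / (384 * D) := by
    have h1 : (r : ℝ) + 2 ≤ R + 3 := by
      have : ((r : ℕ) : ℝ) ≤ ((R + 1 : ℕ) : ℝ) := by exact_mod_cast hr3
      push_cast at this
      linarith
    have h2 : ((384 * D * (R + 3) : ℕ) : ℝ) ≤ W := by exact_mod_cast hW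
    push_cast at h2
    have h3 : (0 : ℝ) < 384 * D * (R + 3) := by positivity
    have h4 : (1 : ℝ) / W ≤ 1 / (384 * D * (R + 3)) := one_div_le_one_div_of_le h3 h2
    calc ((r : ℝ) + 2) * (1 / W * n) ≤ ((R : ℝ) + 3) * (1 / (384 * D * (R + 3)) * n) := by
          apply mul_le_mul h1 (mul_le_mul_of_nonneg_right h4 hnr.le) (by positivity)
            (by positivity)
      _ = n / (384 * D) := by
        field_simp
  have hu4 : (b : ℝ) * e ≤ n / (384 * D) := by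
    have h1 : ((6144 * b * (D * e) : ℕ) : ℝ) ≤ ((16 * n : ℕ) : ℝ) := by
      have : 6144 * b * (D * e) ≤ 16 * n := by
        calc 6144 * b * (D * e) ≤ E * (D * e) := Nat.mul_le_mul_right _ hb2
          _ = E * D * e := by ring
          _ ≤ 16 * n := he2
      exact_mod_cast this
    push_cast at h1
    rw [le_div_iff₀ (by positivity)]
    linarith
  have hu5 : 4 * (n : ℝ) / 2 ^ b ≤ n / (384 * D) := by
    have h1 : (2048 : ℝ) * D ≤ 2 ^ b := by exact_mod_cast hb1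
    calc 4 * (n : ℝ) / 2 ^ b ≤ 4 * n / (2048 * D) := by
          apply div_le_div_of_nonneg_left (by positivity) (by positivity) h1
      _ ≤ n / (384 * D) := by
        rw [div_le_div_iff₀ (by positivity) (by positivity)]
        have : (0 : ℝ) < n * D := by positivity
        linarith
  linarith

/-- The size of `W`. -/
theorem size_R {k k' y d D E C1 R L s W : ℕ} (hk' : k' = k + 2) (hd : d = dx (2 * k') y)
    (hd2 : d ≤ 520 * (2 * k') ^ 3) (hD : D = 2 ^ d) (hE : E = 2 ^ y)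
    (hC1 : C1 = 32 * k' * E ^ 2 * D ^ 2) (hR : R = (k + 1) * (2 * C1))
    (hL : L = 32 * k' ^ 2 * (d + 1)) (hs : s = 2 * d + 7)
    (hW : W = 384 * D * ((R + 3) * (L + s + 1))) :
    W ≤ 2 ^ (65536 * (k + 2) ^ 3) ∧ C1 ≤ W ∧ 384 * D * (L + s + 1) ≤ W ∧
      384 * D * (R + 3) ≤ W := by
  have hdd : d = 2 * (lam (2 * k') y * (2 * k') ^ 2) + 2 * (2 * k') + 4 := by
    rw [hd]
    unfold dx
    ring
  have hlam : lam (2 * k') y = 2 * (2 * k') + y + 3 := rfl
  obtain ⟨l, hl⟩ : ∃ l, l = lam (2 * k') y := ⟨_, rfl⟩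
  rw [← hl] at hdd hlam
  have hlJ : 16 * l ≤ l * (2 * k') ^ 2 := by
    have h1 : 16 ≤ (2 * k') ^ 2 := by
      have : 4 ≤ 2 * k' := by omega
      calc 16 = 4 ^ 2 := by norm_num
        _ ≤ (2 * k') ^ 2 := Nat.pow_le_pow_left this 2
    calc 16 * l = l * 16 := Nat.mul_comm _ _
      _ ≤ _ := Nat.mul_le_mul_left _ h1
  have hyd : y ≤ d := by omega
  have hkd : 2 * k' + 4 ≤ d := by omega
  have hdD : d < D := by
    rw [hD]
    exact Nat.lt_two_pow_self
  have hED : E ≤ D := by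
    rw [hE, hD]
    exact Nat.pow_le_pow_right (by norm_num) hyd
  have hD1 : 1 ≤ D := by omega
  have b1 : C1 ≤ 32 * D ^ 5 := by
    rw [hC1]
    calc 32 * k' * E ^ 2 * D ^ 2 ≤ 32 * D * D ^ 2 * D ^ 2 :=
          Nat.mul_le_mul_right _ (Nat.mul_le_mul (Nat.mul_le_mul_left _ (by omega))
            (Nat.pow_le_pow_left hED 2))
      _ = 32 * D ^ 5 := by ring
  have hD6 : 1 ≤ D ^ 6 := Nat.one_le_pow _ _ hD1
  have hD3 : D ≤ D ^ 3 := Nat.le_self_pow (by norm_num) D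
  have b2 : R + 3 ≤ 67 * D ^ 6 := by
    have h1 : R ≤ 64 * D ^ 6 := by
      rw [hR]
      calc (k + 1) * (2 * C1) ≤ D * (2 * (32 * D ^ 5)) :=
            Nat.mul_le_mul (by omega) (Nat.mul_le_mul_left _ b1)
        _ = 64 * D ^ 6 := by ring
    omega
  have b3 : L + s + 1 ≤ 64 * D ^ 3 := by
    have h1 : L ≤ 32 * D ^ 3 := by
      rw [hL]
      calc 32 * k' ^ 2 * (d + 1) ≤ 32 * D ^ 2 * D :=
            Nat.mul_le_mul (Nat.mul_le_mul_left _ (Nat.pow_le_pow_left (by omega) 2)) (by omega)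
        _ = 32 * D ^ 3 := by ring
    omega
  have hC1R : C1 ≤ R + 3 := by
    rw [hR]
    calc C1 = 1 * C1 := (Nat.one_mul _).symm
      _ ≤ (k + 1) * (2 * C1) := Nat.mul_le_mul (by omega) (by omega)
      _ ≤ _ := Nat.le_add_right _ _
  have h384 : 1 ≤ 384 * D := by omega
  refine ⟨?_, ?_, ?_, ?_⟩
  · have b5 : W ≤ 2 ^ 22 * D ^ 10 := by
      rw [hW]
      calc 384 * D * ((R + 3) * (L + s + 1)) ≤ 384 * D * ((67 * D ^ 6) * (64 * D ^ 3)) :=
            Nat.mul_le_mul_left _ (Nat.mul_le_mul b2 b3)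
        _ = 1646592 * D ^ 10 := by ring
        _ ≤ 2 ^ 22 * D ^ 10 := Nat.mul_le_mul_right _ (by norm_num)
    refine b5.trans ?_
    have h1 : (2 : ℕ) ^ 22 * D ^ 10 = 2 ^ (22 + 10 * d) := by
      rw [hD, ← pow_mul, pow_add]
      congr 2
      ring
    rw [h1]
    apply Nat.pow_le_pow_right (by norm_num)
    have h2 : (2 * k') ^ 3 = 8 * (k + 2) ^ 3 := by
      rw [hk']
      ring
    have h3 : 1 ≤ (k + 2) ^ 3 := Nat.one_le_pow _ _ (by omega)
    omega
  · rw [hW]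
    calc C1 = 1 * (C1 * 1) := by ring
      _ ≤ 384 * D * ((R + 3) * (L + s + 1)) :=
        Nat.mul_le_mul h384 (Nat.mul_le_mul hC1R (by omega))
  · rw [hW]
    apply Nat.mul_le_mul_left
    exact Nat.le_mul_of_pos_left _ (by omega)
  · rw [hW]
    apply Nat.mul_le_mul_left
    exact Nat.le_mul_of_pos_right _ (by omega)

/-- **Assembly.** -/
theorem asm2 (hcon : S_CON) (hselx : S_SELX) (hrec : S_REC) (hone : S_ONE) (hcnt : S_CNT)
    (k : ℕ) : ∃ W : ℕ, 1 ≤ W ∧ W ≤ 2 ^ (65536 * (k + 2) ^ 3) ∧ ∀ n ≥ W,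
      ∃ f : Inp n → Bool, OneP n (Nat.log 2 n) (n ^ 7) f ∧
        HardC n (k * n) (2 ^ (1 / (W : ℝ) * n)) (2 ^ (-(1 / (W : ℝ) * n))) f := by
  classical
  obtain ⟨k', hk'⟩ : ∃ k', k' = k + 2 := ⟨_, rfl⟩
  obtain ⟨y, hy, hd2⟩ := par4 (J := 2 * k') (by omega)
  obtain ⟨d, hd⟩ : ∃ d, d = dx (2 * k') y := ⟨_, rfl⟩
  rw [← hd] at hy hd2
  obtain ⟨D, hD⟩ : ∃ D, D = 2 ^ d := ⟨_, rfl⟩
  obtain ⟨E, hE⟩ : ∃ E, E = 2 ^ y := ⟨_, rfl⟩
  rw [← hE] at hy
  have hD1 : 1 ≤ D := by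
    rw [hD]
    exact Nat.one_le_two_pow
  have hE1 : 1 ≤ E := by
    rw [hE]
    exact Nat.one_le_two_pow
  obtain ⟨C1, hC1⟩ : ∃ C1, C1 = 32 * k' * E ^ 2 * D ^ 2 := ⟨_, rfl⟩
  obtain ⟨R, hR⟩ : ∃ R, R = (k + 1) * (2 * C1) := ⟨_, rfl⟩
  obtain ⟨L, hL⟩ : ∃ L, L = 32 * k' ^ 2 * (d + 1) := ⟨_, rfl⟩
  obtain ⟨s, hs⟩ : ∃ s, s = 2 * d + 7 := ⟨_, rfl⟩
  obtain ⟨W, hW⟩ : ∃ W, W = 384 * D * ((R + 3) * (L + s + 1)) := ⟨_, rfl⟩
  have hC11 : 1 ≤ C1 := by
    rw [hC1]
    have : 0 < k' := by omega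
    have : 0 < 32 * k' * E ^ 2 * D ^ 2 := by positivity
    exact this
  obtain ⟨hW2, hWC, hWL, hWR⟩ := size_R hk' hd hd2 hD hE hC1 hR hL hs hW
  refine ⟨W, hC11.trans hWC, hW2, fun n hn => ?_⟩
  clear hW2
  have hnC : C1 ≤ n := hWC.trans hn
  have hnL : 384 * D * (L + s + 1) ≤ n := hWL.trans hn
  have hnD : 384 * D ≤ n := le_trans (Nat.le_mul_of_pos_right _ (by omega)) hnL
  have hn0 : 0 < n := by omega
  -- the parameters
  obtain ⟨ℓ, hℓ⟩ : ∃ ℓ, ℓ = n / C1 := ⟨_, rfl⟩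
  have hℓ1 : 1 ≤ ℓ := by
    rw [hℓ, Nat.le_div_iff_mul_le (by omega)]
    omega
  have hℓ2 : C1 * ℓ ≤ n := by
    rw [hℓ]
    exact Nat.mul_div_le _ _
  have hℓ3 : n < C1 * (ℓ + 1) := by
    rw [hℓ]
    exact Nat.lt_mul_div_succ _ (by omega)
  obtain ⟨r, hr⟩ : ∃ r, r = (k + 1) * n / ℓ + 1 := ⟨_, rfl⟩
  have hr1 : (k + 1) * n ≤ r * ℓ := by
    have := Nat.lt_mul_div_succ ((k + 1) * n) (show 0 < ℓ by omega)
    rw [hr, Nat.mul_comm _ ℓ]
    exact this.le
  have hr2 : r * ℓ ≤ k' * n := by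
    have h1 := Nat.div_mul_le_self ((k + 1) * n) ℓ
    have h2 : ℓ ≤ n := by
      rw [hℓ]
      exact Nat.div_le_self _ _
    rw [hr, hk', Nat.succ_mul]
    have h3 : (k + 2) * n = (k + 1) * n + n := by ring
    omega
  have hr3 : r ≤ R + 1 := by
    rw [hr, hR]
    apply Nat.succ_le_succ
    have h1 : (k + 1) * n ≤ (k + 1) * (2 * C1) * ℓ := by
      rw [mul_assoc]
      apply Nat.mul_le_mul_left
      calc n ≤ C1 * (ℓ + 1) := hℓ3.le
        _ ≤ C1 * (2 * ℓ) := Nat.mul_le_mul_left _ (by omega)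
        _ = 2 * C1 * ℓ := by ring
    exact (Nat.div_le_div_right h1).trans (by rw [Nat.mul_div_cancel _ (by omega)])
  obtain ⟨m, hm⟩ : ∃ m, m = n / (2 * D) := ⟨_, rfl⟩
  have hm1 : 2 * D * m ≤ n := by
    rw [hm]
    exact Nat.mul_div_le _ _
  have hm2 : n < 2 * D * (m + 1) := by
    rw [hm]
    exact Nat.lt_mul_div_succ _ (by positivity)
  obtain ⟨K, hK⟩ : ∃ K, K = n / (48 * D) := ⟨_, rfl⟩
  have hK1 : 48 * D * K ≤ n := by
    rw [hK]
    exact Nat.mul_div_le _ _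
  have hK2 : n < 48 * D * (K + 1) := by
    rw [hK]
    exact Nat.lt_mul_div_succ _ (by positivity)
  have hK3 : 1 ≤ K := by
    rw [hK, Nat.le_div_iff_mul_le (by positivity)]
    omega
  have hKm : 4 * (6 * K) ≤ m := by
    rw [hm, Nat.le_div_iff_mul_le (by positivity)]
    calc 4 * (6 * K) * (2 * D) = 48 * D * K := by ring
      _ ≤ n := hK1
  obtain ⟨e, he⟩ : ∃ e, e = 16 * n / (E * D) := ⟨_, rfl⟩
  have he1 : 16 * n < E * D * (e + 1) := by
    rw [he]
    exact Nat.lt_mul_div_succ _ (by positivity)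
  have he2 : E * D * e ≤ 16 * n := by
    rw [he]
    exact Nat.mul_div_le _ _
  obtain ⟨b, hb⟩ : ∃ b, b = d + 12 := ⟨_, rfl⟩
  have hb1 : 2048 * D ≤ 2 ^ b := by
    rw [hb, pow_add, ← hD]
    omega
  have hb2 : 6144 * b ≤ E := by
    refine le_trans ?_ hy
    rw [hb]
    omega
  -- the matrix
  obtain ⟨M, hM⟩ := rnk2 n m s (Fin 6 × Fin K) (by
    rw [Fintype.card_prod, Fintype.card_fin, Fintype.card_fin, hs]
    exact rnk_cond (by rw [← hD]; exact hm2) hKm (by omega))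
  rw [Fintype.card_prod, Fintype.card_fin, Fintype.card_fin] at hM
  obtain ⟨w, hw⟩ := exists_popular M
  refine ⟨fun x => decide (quad M x ≠ w), ?_, ?_⟩
  · -- the randomized program
    have hwx : ∃ x, quad M x = w := by
      by_contra hcon
      push Not at hcon
      have : (univ.filter fun x : Inp n => quad M x = w) = ∅ :=
        filter_eq_empty_iff.2 fun x _ => hcon x
      rw [this, card_empty, mul_zero] at hw
      have : 0 < 2 ^ n := by positivity
      omega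
    obtain ⟨ρ, hρ, hρ1, hρK, hρn⟩ : ∃ ρ, ρ = Nat.log 2 n ∧ 1 ≤ ρ ∧ 4 * K ≤ 2 ^ ρ ∧ 2 ^ ρ ≤ n := by
      refine ⟨Nat.log 2 n, rfl, Nat.log_pos (by norm_num) (by omega), ?_,
        Nat.pow_log_le_self 2 hn0.ne'⟩
      have h1 := Nat.lt_pow_succ_log_self (show 1 < 2 by norm_num) n
      rw [pow_succ] at h1
      have h4 : 48 * 1 * K ≤ 48 * D * K := Nat.mul_le_mul_right _ (Nat.mul_le_mul_left _ hD1)
      omega
    rw [← hρ]
    obtain ⟨V, hV, P, hcard, hP⟩ := hone n K ρ M w hρ1 hρK hwx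
    have hfold : ∀ (ω : Fin ρ → Bool) (x : Inp n), ((List.finRange n).foldl (fun (v : (Fin ρ → Bool) × V) i =>
        (v.1, (P v.1).next i v.2 (x i))) (ω, (P ω).start)) =
        (ω, (List.finRange n).foldl (fun v i => (P ω).next i v (x i)) (P ω).start) := by
      intro ω x
      generalize (P ω).start = v
      generalize List.finRange n = l
      induction l generalizing v with
      | nil => rfl
      | cons i l ih => exact ih _
    refine ⟨(Fin ρ → Bool) × V, inferInstance, fun ω => (ω, (P ω).start),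
      fun i v b => (v.1, (P v.1).next i v.2 b), fun v => (P v.1).acc v.2, ?_, ?_⟩
    · rw [Nat.card_prod, Nat.card_eq_fintype_card, Fintype.card_fun, Fintype.card_bool,
        Fintype.card_fin]
      calc 2 ^ ρ * Nat.card V ≤ 2 ^ ρ * 2 ^ (6 * ρ) := Nat.mul_le_mul_left _ hcard
        _ = (2 ^ ρ) ^ 7 := by ring
        _ ≤ n ^ 7 := Nat.pow_le_pow_left hρn 7
    · intro x
      simp only [hfold]
      constructor
      · intro hx
        have h1 := (hP x).1 (by simpa using hx)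
        rw [Nat.card_eq_fintype_card, Fintype.card_subtype]
        have h2 : (univ.filter fun ω => (P ω).acc ((List.finRange n).foldl
          (fun v i => (P ω).next i v (x i)) (P ω).start)).card =
            (univ.filter fun ω => (P ω).Accepts x).card := rfl
        have h3 : 2 ^ ρ ≤ 2 * (univ.filter fun ω => (P ω).acc ((List.finRange n).foldl
          (fun v i => (P ω).next i v (x i)) (P ω).start)).card := by
          rw [h2]
          exact h1
        exact h3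
      · intro hx ω
        exact (hP x).2 (by simpa using hx) ω
  · intro V Ω hV hΩ hne start var next out htrue hfalse
    by_contra hcon'
    push Not at hcon'
    -- a good random string
    obtain ⟨W₀, hW₀⟩ : ∃ W₀, W₀ = univ.filter fun x : Inp n => quad M x = w := ⟨_, rfl⟩
    obtain ⟨ε, hε⟩ : ∃ ε : ℝ, ε = 2 ^ (-(1 / (W : ℝ) * n)) := ⟨_, rfl⟩
    have hε0 : 0 < ε := by
      rw [hε]
      positivity
    rw [← hε] at hfalse
    obtain ⟨ω, hω⟩ : ∃ ω : Ω, ε * W₀.card ≤ (W₀.filter fun x =>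
        out ω ((stp (var ω) (next ω) (out ω) x)^[k * n] (start ω)) = some false).card := by
      by_contra hno
      push Not at hno
      have h1 : ∑ ω : Ω, ((W₀.filter fun x =>
          out ω ((stp (var ω) (next ω) (out ω) x)^[k * n] (start ω)) = some false).card : ℝ) <
            ∑ _ω : Ω, ε * W₀.card := sum_lt_sum_of_nonempty univ_nonempty fun ω _ => hno ω
      have h2 : ∑ ω : Ω, ((W₀.filter fun x =>
          out ω ((stp (var ω) (next ω) (out ω) x)^[k * n] (start ω)) = some false).card : ℝ) =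
            ∑ x ∈ W₀, ((univ.filter fun ω =>
          out ω ((stp (var ω) (next ω) (out ω) x)^[k * n] (start ω)) = some false).card : ℝ) := by
        simp only [card_filter]
        push_cast
        exact sum_comm
      have h3 : ∑ _x ∈ W₀, ε * Fintype.card Ω ≤ ∑ x ∈ W₀, ((univ.filter fun ω =>
          out ω ((stp (var ω) (next ω) (out ω) x)^[k * n] (start ω)) = some false).card : ℝ) := by
        apply sum_le_sum
        intro x hx
        rw [hW₀] at hx
        exact hfalse x (decide_eq_false (by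
          rw [not_not]
          exact (mem_filter.1 hx).2))
      rw [sum_const, nsmul_eq_mul] at h1 h3
      rw [card_univ] at h1
      rw [h2] at h1
      have h4 : (W₀.card : ℝ) * (ε * Fintype.card Ω) = (Fintype.card Ω : ℝ) * (ε * W₀.card) := by
        ring
      linarith
    obtain ⟨S₀, hS₀⟩ : ∃ S₀, S₀ = W₀.filter fun x =>
        out ω ((stp (var ω) (next ω) (out ω) x)^[k * n] (start ω)) = some false := ⟨_, rfl⟩
    rw [← hS₀] at hω
    have hw' : (2 : ℝ) ^ n ≤ 2 ^ (2 * K) * W₀.card := by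
      rw [hW₀]
      exact_mod_cast hw
    have hS₀c : ε * 2 ^ n ≤ 2 ^ (2 * K) * S₀.card := by
      calc ε * 2 ^ n ≤ ε * (2 ^ (2 * K) * W₀.card) := mul_le_mul_of_nonneg_left hw' hε0.le
        _ = 2 ^ (2 * K) * (ε * W₀.card) := by ring
        _ ≤ _ := mul_le_mul_of_nonneg_left hω (by positivity)
    have hS₀ne : S₀.Nonempty := by
      rw [← card_pos]
      by_contra h0
      have h0' : S₀.card = 0 := by omega
      rw [h0', Nat.cast_zero, mul_zero] at hS₀c
      have : 0 < ε * 2 ^ n := by positivity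
      linarith
    have hbd : ∀ y : Inp n, bd (pad hn0 (var ω) (next ω) (out ω) (k * n)) ℓ (start ω) y r =
        (stp (var ω) (next ω) (out ω) y)^[k * n] (start ω) := by
      intro y
      unfold bd
      obtain ⟨c, hc⟩ := Nat.exists_eq_add_of_le
        (show k * n ≤ r * ℓ by rw [Nat.succ_mul] at hr1; omega)
      rw [hc]
      exact run_pad_late hn0 (var ω) (next ω) (out ω) (k * n) y (start ω) c
    have hcore := core2 hcon hselx hrec (k := k') (y := y) (by omega) hn0 hℓ1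
      (by rw [← hd]; exact hD) hE (by rw [← hC1]; exact hℓ2) hr2 hm1 he1 M hM w S₀ hS₀ne
      (pad hn0 (var ω) (next ω) (out ω) (k * n)) (start ω) (by
      intro x β i
      exact cov_pad hn0 (var ω) (next ω) (out ω) (k * n) hℓ1
        (by rw [← Nat.succ_mul]; exact hr1) β x i) (by
      intro x hx z hz
      rw [hS₀] at hx
      have hx2 := (mem_filter.1 hx).2
      rw [hbd, hbd] at hz
      rw [← hz] at hx2
      by_contra hne
      exact htrue z (decide_eq_true hne) ω hx2)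
    rw [← hd, ← hL] at hcore
    have h1 : (2 : ℝ) ^ K ≤ (L : ℝ) * (Nat.card V) ^ (r + 1) * (Idx n e).card *
        2 ^ s * 2 ^ (1 / (W : ℝ) * n) := by
      have h2 : (S₀.card : ℝ) * 2 ^ (3 * K) ≤ (L : ℝ) * (Nat.card V) ^ (r + 1) *
          (Idx n e).card * 2 ^ (n + s) := by exact_mod_cast hcore
      obtain ⟨B, hB⟩ : ∃ B : ℝ, B = (L : ℝ) * (Nat.card V) ^ (r + 1) *
          (Idx n e).card := ⟨_, rfl⟩
      rw [← hB] at h2 ⊢
      have h3 : ε * 2 ^ n * 2 ^ K * 2 ^ (2 * K) ≤ B * 2 ^ s * 2 ^ n * 2 ^ (2 * K) := by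
        calc ε * 2 ^ n * 2 ^ K * 2 ^ (2 * K) = (ε * 2 ^ n) * 2 ^ (3 * K) := by
              rw [show 3 * K = K + 2 * K by ring, pow_add]
              ring
          _ ≤ (2 ^ (2 * K) * S₀.card) * 2 ^ (3 * K) :=
            mul_le_mul_of_nonneg_right hS₀c (by positivity)
          _ = 2 ^ (2 * K) * (S₀.card * 2 ^ (3 * K)) := by ring
          _ ≤ 2 ^ (2 * K) * (B * 2 ^ (n + s)) := mul_le_mul_of_nonneg_left h2 (by positivity)
          _ = _ := by
            rw [pow_add]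
            ring
      have h4 : ε * 2 ^ K ≤ B * 2 ^ s := by
        have h5 : (0 : ℝ) < 2 ^ n * 2 ^ (2 * K) := by positivity
        have h6 : (ε * 2 ^ K) * (2 ^ n * 2 ^ (2 * K)) ≤ (B * 2 ^ s) * (2 ^ n * 2 ^ (2 * K)) := by
          linarith
        exact le_of_mul_le_mul_right h6 h5
      have h5 : (2 : ℝ) ^ (1 / (W : ℝ) * n) * ε = 1 := by
        rw [hε, ← Real.rpow_add (by norm_num), add_neg_cancel, Real.rpow_zero]
      calc (2 : ℝ) ^ K = (2 : ℝ) ^ (1 / (W : ℝ) * n) * (ε * 2 ^ K) := by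
            rw [← mul_assoc, h5, one_mul]
        _ ≤ (2 : ℝ) ^ (1 / (W : ℝ) * n) * (B * 2 ^ s) :=
          mul_le_mul_of_nonneg_left h4 (by positivity)
        _ = _ := by ring
    have hnum := num' (b := b) (e := e) h1 (by
      have := hcnt n e b
      unfold Idx
      refine le_trans (le_of_eq ?_) this
      congr 2) hcon'
    exact final_num2 hD1 hn0 hnL hK2 hr3 hWR hb1 hb2 he2 hnum

/-- **One sequence of functions for all lengths.** -/
theorem all2 (hcon : S_CON) (hselx : S_SELX) (hrec : S_REC) (hone : S_ONE) (hcnt : S_CNT) :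
    ∃ f : (n : ℕ) → Inp n → Bool,
      (∀ n, 1 ≤ n → ∃ ρ, 2 ^ ρ ≤ n ∧ OneP n ρ (n ^ 8) (f n)) ∧
      ∃ A : ℕ, ∀ k : ℕ, 1 ≤ k → ∀ n : ℕ, 2 ^ (A * k ^ 3) ≤ n →
        HardD n (k * n) (2 ^ ((n : ℝ) / 2 ^ (A * k ^ 3))) (2 ^ (-((n : ℝ) / 2 ^ (A * k ^ 3))))
          (f n) := by
  classical
  choose W hWpos hW2 hW using asm2 hcon hselx hrec hone hcnt
  have key : ∀ N : ℕ, ∃ f : Inp N → Bool,
      (1 ≤ N → ∃ ρ, 2 ^ ρ ≤ N ∧ OneP N ρ (N ^ 8) f) ∧
      ∀ k, k < N / 2 → W k ≤ N - N / 2 →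
        HardD N (k * (N - N / 2)) (2 ^ (1 / (W k : ℝ) * (N - N / 2 : ℕ)))
          (2 ^ (-(1 / (W k : ℝ) * (N - N / 2 : ℕ)))) f := by
    intro N
    obtain ⟨t, n, ht, hn, rfl⟩ : ∃ t n, t = N / 2 ∧ n = N - N / 2 ∧ N = t + n :=
      ⟨_, _, rfl, rfl, by omega⟩
    rw [← ht]
    have e : t + n - t = n := by omega
    rw [e]
    rcases Nat.eq_zero_or_pos n with h0 | h0
    · refine ⟨fun _ => false, fun h => ?_, fun k hk => ?_⟩
      · omega
      · omega
    have hg : ∀ k : Fin t, ∃ g : Inp n → Bool, OneP n (Nat.log 2 n) (n ^ 7) g ∧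
        (W k ≤ n → HardC n (k * n) (2 ^ (1 / (W k : ℝ) * n)) (2 ^ (-(1 / (W k : ℝ) * n))) g) := by
      intro k
      by_cases h : W k ≤ n
      · obtain ⟨g, h1, h2⟩ := hW k n h
        exact ⟨g, h1, fun _ => h2⟩
      · exact ⟨fun _ => false, oneP_false _ _ _ (Nat.one_le_pow _ _ h0), fun h' => absurd h' h⟩
    choose g hg1 hg2 using hg
    refine ⟨sel g, fun _ => ⟨Nat.log 2 n, ?_, ?_⟩, fun k hk hk' => ?_⟩
    · exact (Nat.pow_log_le_self 2 h0.ne').trans (by omega)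
    · obtain ⟨V, hV, start, next, acc, h1, h2⟩ := sel_oneP g hg1
      refine ⟨V, hV, start, next, acc, h1.trans ?_, h2⟩
      have h3 : 2 ^ Nat.log 2 n ≤ n ^ 7 :=
        (Nat.pow_log_le_self 2 h0.ne').trans (Nat.le_self_pow (by norm_num) n)
      calc 2 ^ Nat.log 2 n + t * n ^ 7 ≤ n ^ 7 + t * n ^ 7 := Nat.add_le_add_right h3 _
        _ = (t + 1) * n ^ 7 := by ring
        _ ≤ (t + n) * (t + n) ^ 7 :=
          Nat.mul_le_mul (by omega) (Nat.pow_le_pow_left (by omega) 7)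
        _ = (t + n) ^ 8 := by ring
    · exact sel_hardD h0 g ⟨k, hk⟩ (hardD_of_hardC (hg2 ⟨k, hk⟩ hk'))
  choose f hf1 hf2 using key
  refine ⟨f, hf1, 4194308, fun k hk N hN => ?_⟩
  have hWb : 2 * W (2 * k) * (4 * k + 1) ≤ 2 ^ (4194308 * k ^ 3) := by
    have h1 : 4 * k + 1 ≤ 2 ^ (3 * k) := by
      have h2 : ∀ k : ℕ, 1 ≤ k → 4 * k + 1 ≤ 2 ^ (3 * k) := by
        intro k hk
        induction k, hk using Nat.le_induction with
        | base => norm_num
        | succ m hm ih =>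
          have e : 2 ^ (3 * (m + 1)) = 8 * 2 ^ (3 * m) := by
            rw [Nat.mul_add, pow_add]
            norm_num
            ring
          rw [e]
          omega
      exact h2 k hk
    have h2 : (2 * k + 2) ^ 3 ≤ 64 * k ^ 3 := by
      calc (2 * k + 2) ^ 3 ≤ (4 * k) ^ 3 := Nat.pow_le_pow_left (by omega) 3
        _ = 64 * k ^ 3 := by ring
    have h3 : k ≤ k ^ 3 := Nat.le_self_pow (by norm_num) k
    have h4 : W (2 * k) ≤ 2 ^ (65536 * (64 * k ^ 3)) :=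
      (hW2 (2 * k)).trans (Nat.pow_le_pow_right (by norm_num) (Nat.mul_le_mul_left _ h2))
    calc 2 * W (2 * k) * (4 * k + 1) ≤ 2 * 2 ^ (65536 * (64 * k ^ 3)) * 2 ^ (3 * k) :=
          Nat.mul_le_mul (Nat.mul_le_mul_left _ h4) h1
      _ = 2 ^ (65536 * (64 * k ^ 3) + 1 + 3 * k) := by
        rw [pow_add, pow_succ]
        ring
      _ ≤ 2 ^ (4194308 * k ^ 3) := Nat.pow_le_pow_right (by norm_num) (by omega)
  have hNW := hWb.trans hN
  have hW2' : 2 * W (2 * k) ≤ 2 * W (2 * k) * (4 * k + 1) := Nat.le_mul_of_pos_right _ (by omega)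
  have hkN : 2 * (4 * k + 1) ≤ N := by
    refine le_trans ?_ hNW
    exact Nat.mul_le_mul_right _ (by have := hWpos (2 * k); omega)
  have hWN : W (2 * k) ≤ N - N / 2 := by omega
  have hWA : 2 * W (2 * k) ≤ 2 ^ (4194308 * k ^ 3) := hW2'.trans hWb
  have hWr : (0 : ℝ) < W (2 * k) := by exact_mod_cast hWpos (2 * k)
  have h1 : (N : ℝ) ≤ 2 * ((N - N / 2 : ℕ) : ℝ) := by
    have : N ≤ 2 * (N - N / 2) := by omega
    exact_mod_cast this
  have h2 : 2 * (W (2 * k) : ℝ) ≤ 2 ^ (4194308 * k ^ 3) := by exact_mod_cast hWA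
  clear hWb hN hNW hWA hW2
  have h3 : (N : ℝ) / 2 ^ (4194308 * k ^ 3) ≤ 1 / (W (2 * k) : ℝ) * ((N - N / 2 : ℕ) : ℝ) := by
    rw [one_div_mul_eq_div, div_le_div_iff₀ (by positivity) hWr]
    calc (N : ℝ) * W (2 * k) ≤ 2 * ((N - N / 2 : ℕ) : ℝ) * W (2 * k) :=
          mul_le_mul_of_nonneg_right h1 hWr.le
      _ = ((N - N / 2 : ℕ) : ℝ) * (2 * W (2 * k)) := by ring
      _ ≤ _ := mul_le_mul_of_nonneg_left h2 (Nat.cast_nonneg _)
  refine hardD_mono ?_ ?_ ?_ (hf2 N (2 * k) (by omega) hWN)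
  · have : N ≤ 2 * (N - N / 2) := by omega
    calc k * N ≤ k * (2 * (N - N / 2)) := Nat.mul_le_mul_left _ this
      _ = 2 * k * (N - N / 2) := by ring
  · exact Real.rpow_le_rpow_of_exponent_le (by norm_num) h3
  · exact Real.rpow_le_rpow_of_exponent_le (by norm_num) (neg_le_neg h3)

end Pool.Agent.L0h58.HR
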