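import Pool.Agent.L0h58.HN.Stm
import Pool.Agent.L0h32.LT.Pop

/-!
# Popular classes of inputs, with explicit dependence on the time
-/

set_option autoImplicit false

namespace Pool.Agent.L0h58.HR

open Finset Polynomial Pool.Agent.L0h32.LT Pool.Agent.L0h32.LT2 Pool.Agent.L0h58.HN

variable {n : ℕ} {V : Type}

/-- At least half of the labellings are good. -/
theorem half_good (hcon : S_CON) {k D E Q Θ r ℓ j : ℕ} (hk : 1 ≤ k) (hD : 1 ≤ D) (hE : 1 ≤ E)
    (hQ : 4 ≤ Q) (hΘ : 1 ≤ Θ) (hn0 : 1 ≤ n) (hl : 1 ≤ ℓ)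
    (hn : 32 * k * E ^ 2 * D ^ 2 * ℓ ≤ n) (hrl : r * ℓ ≤ k * n) (t : Fin n → Finset (Fin r))
    (ht : ∀ s, (univ.filter fun i => s ∈ t i).card ≤ ℓ) (hA : Ana D E Q Θ j t)
    [∀ Fh : (Fin r → Fin Q) × (Fin n → Fin Θ), Decidable (Good D E j t Fh.1 Fh.2)] :
    Q ^ r * Θ ^ n ≤ 2 * (univ.filter fun Fh : (Fin r → Fin Q) × (Fin n → Fin Θ) =>
      Good D E j t Fh.1 Fh.2).card := by
  classical
  have h1 := hcon k D E Q Θ n r ℓ j hk hD hE hQ hΘ hn0 hl hrl t ht hA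
  have h2 : (6 : ℝ) ≤ Real.exp ((n : ℝ) / (16 * k * E ^ 2 * D ^ 2 * ℓ)) := by
    have h3 : (2 : ℝ) ≤ (n : ℝ) / (16 * k * E ^ 2 * D ^ 2 * ℓ) := by
      have hk' : (0 : ℝ) < k := by exact_mod_cast hk
      have hD' : (0 : ℝ) < D := by exact_mod_cast hD
      have hE' : (0 : ℝ) < E := by exact_mod_cast hE
      have hl' : (0 : ℝ) < ℓ := by exact_mod_cast hl
      rw [le_div_iff₀ (by positivity)]
      have h4 : ((32 * k * E ^ 2 * D ^ 2 * ℓ : ℕ) : ℝ) ≤ n := by exact_mod_cast hn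
      push_cast at h4
      linarith
    refine le_trans ?_ (Real.exp_le_exp.2 h3)
    have h5 := Real.exp_one_gt_d9
    have h6 : Real.exp 2 = Real.exp 1 * Real.exp 1 := by
      rw [← Real.exp_add]
      norm_num
    rw [h6]
    nlinarith
  obtain ⟨B, hB⟩ : ∃ B, B = (univ.filter fun Fh : (Fin r → Fin Q) × (Fin n → Fin Θ) =>
      ¬ Good D E j t Fh.1 Fh.2).card := ⟨_, rfl⟩
  obtain ⟨G, hG⟩ : ∃ G, G = (univ.filter fun Fh : (Fin r → Fin Q) × (Fin n → Fin Θ) =>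
      Good D E j t Fh.1 Fh.2).card := ⟨_, rfl⟩
  have h7 : G + B = Q ^ r * Θ ^ n := by
    rw [hG, hB]
    have h8 := card_filter_add_card_filter_not (s := (univ : Finset ((Fin r → Fin Q) ×
      (Fin n → Fin Θ)))) (fun Fh => Good D E j t Fh.1 Fh.2)
    rw [card_univ, Fintype.card_prod, Fintype.card_fun, Fintype.card_fun] at h8
    simp only [Fintype.card_fin] at h8
    exact h8
  have h9 : (B : ℝ) * Real.exp ((n : ℝ) / (16 * k * E ^ 2 * D ^ 2 * ℓ)) ≤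
      3 * (Q : ℝ) ^ r * (Θ : ℝ) ^ n := by
    rw [hB]
    convert h1
  have h10 : (B : ℝ) * 6 ≤ 3 * (Q : ℝ) ^ r * (Θ : ℝ) ^ n :=
    (mul_le_mul_of_nonneg_left h2 (Nat.cast_nonneg B)).trans h9
  have h11 : B * 6 ≤ 3 * (Q ^ r * Θ ^ n) := by
    have h12 : ((B * 6 : ℕ) : ℝ) ≤ ((3 * (Q ^ r * Θ ^ n) : ℕ) : ℝ) := by
      push_cast
      linarith
    exact_mod_cast h12
  have h13 : Q ^ r * Θ ^ n ≤ 2 * G := by omega
  rw [hG] at h13
  convert h13

/-- The popular class of a set of inputs. -/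
theorem exists_class2 (hcon : S_CON) (hselx : S_SELX) {k y D E r ℓ : ℕ} (hk : 1 ≤ k)
    (hn0 : 1 ≤ n) (hl : 1 ≤ ℓ) (hD : D = 2 ^ dx (2 * k) y) (hE : E = 2 ^ y) (P : Mach n V)
    [Finite V] (v₀ : V) (hn : 32 * k * E ^ 2 * D ^ 2 * ℓ ≤ n)
    (hcov : ∀ x : Inp n, ∀ i, (tt P ℓ (bd P ℓ v₀ x) r x i).Nonempty) (hrl : r * ℓ ≤ k * n)
    (W : Finset (Inp n)) (hW : W.Nonempty) :
    ∃ (j Q Θ : ℕ) (F : Fin r → Fin Q) (h : Fin n → Fin Θ) (β : ℕ → V) (S : Finset (Inp n)),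
      S ⊆ W ∧ S.Nonempty ∧ (∀ x ∈ S, ∀ s ≤ r, bd P ℓ v₀ x s = β s) ∧
      (∀ x ∈ S, Good D E j (tt P ℓ β r x) F h) ∧
      W.card ≤ 16 * k ^ 2 * (dx (2 * k) y + 1) * Nat.card V ^ (r + 1) * S.card := by
  classical
  have : Fintype V := Fintype.ofFinite V
  have hD1 : 1 ≤ D := by
    rw [hD]
    exact Nat.one_le_two_pow
  have hE1 : 1 ≤ E := by
    rw [hE]
    exact Nat.one_le_two_pow
  have hW' : W.card ≠ 0 := by
    rw [Ne, card_eq_zero]
    exact hW.ne_empty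
  -- the multiplicity and the sampling rate
  have h1 : ∀ x : Inp n, ∃ p : ℕ × ℕ × ℕ, p ∈ Icc 1 (4 * k) ×ˢ Icc 1 (2 * k) ×ˢ
      range (dx (2 * k) y + 1) ∧
      (2 ^ (lam (2 * k) y * p.1)) ^ r * (2 ^ p.2.2) ^ n ≤ 2 * (univ.filter fun Fh :
        (Fin r → Fin (2 ^ (lam (2 * k) y * p.1))) × (Fin n → Fin (2 ^ p.2.2)) =>
          Good D E p.2.1 (tt P ℓ (bd P ℓ v₀ x) r x) Fh.1 Fh.2).card := by
    intro x
    have hsum : ∑ i, (tt P ℓ (bd P ℓ v₀ x) r x i).card =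
        ∑ s : Fin r, (seg P ℓ (bd P ℓ v₀ x) x s).card := by
      unfold tt
      simp only [card_filter]
      rw [sum_comm]
      apply sum_congr rfl
      intro s _
      rw [← card_filter, filter_mem_eq_inter, univ_inter]
    obtain ⟨u, j, θ, h2, h3, h4, h5, h6, h7⟩ := hselx k y n n hk hn0 hn0
      (mu (tt P ℓ (bd P ℓ v₀ x) r x))
    have h8 := h7 r (tt P ℓ (bd P ℓ v₀ x) r x) (hcov x) (by
        rw [hsum]
        refine (sum_le_card_nsmul _ _ ℓ fun s _ => card_rd_le _ _ _ _ _).trans ?_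
        rw [card_univ, Fintype.card_fin, smul_eq_mul]
        exact hrl) (by
        intro i _
        rw [mul_comm (n : ℝ), sub_self, abs_zero, mul_zero]
        positivity)
    rw [← hD, ← hE] at h8
    refine ⟨(u, j, θ), mem_product.2 ⟨mem_Icc.2 ⟨h2, h3⟩, mem_product.2 ⟨mem_Icc.2 ⟨h4, h5⟩,
      mem_range.2 (Nat.lt_succ_of_le h6)⟩⟩, ?_⟩
    refine half_good hcon hk hD1 hE1 ?_ Nat.one_le_two_pow hn0 hl hn hrl _ ?_ h8
    · calc 4 = 2 ^ 2 := by norm_num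
        _ ≤ 2 ^ (lam (2 * k) y * u) := by
          apply Nat.pow_le_pow_right (by norm_num)
          have h9 : 2 ≤ lam (2 * k) y := by
            unfold lam
            omega
          calc 2 = 2 * 1 := rfl
            _ ≤ lam (2 * k) y * u := Nat.mul_le_mul h9 h2
    · intro s
      have : (univ.filter fun i => s ∈ tt P ℓ (bd P ℓ v₀ x) r x i) =
          seg P ℓ (bd P ℓ v₀ x) x s := by
        ext i
        simp [tt]
      rw [this]
      exact card_rd_le _ _ _ _ _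
  choose p hp hp' using h1
  obtain ⟨⟨u, j, θ⟩, hy, hc1⟩ := pigeon W p (Icc 1 (4 * k) ×ˢ Icc 1 (2 * k) ×ˢ
    range (dx (2 * k) y + 1)) (fun x _ => hp x) hW
  set W₁ := W.filter fun x => p x = (u, j, θ) with hW₁
  -- the labels
  have : NeZero (2 ^ (lam (2 * k) y * u)) := ⟨by positivity⟩
  have : NeZero (2 ^ θ) := ⟨by positivity⟩
  obtain ⟨⟨F, h⟩, hc2⟩ := double (β := (Fin r → Fin (2 ^ (lam (2 * k) y * u))) ×
    (Fin n → Fin (2 ^ θ))) W₁
    (fun x Fh => Good D E j (tt P ℓ (bd P ℓ v₀ x) r x) Fh.1 Fh.2) (by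
      intro x hx
      have hx' := (mem_filter.1 hx).2
      have := hp' x
      rw [hx'] at this
      rw [Fintype.card_prod, Fintype.card_fun, Fintype.card_fun]
      simp only [Fintype.card_fin]
      convert this)
  set W₂ := W₁.filter fun x => Good D E j (tt P ℓ (bd P ℓ v₀ x) r x) F h with hW₂
  have hne : W₂.Nonempty := by
    rw [← card_pos]
    by_contra h0
    have h0' : W₂.card = 0 := by omega
    rw [h0'] at hc2
    have : W₁.card = 0 := by omega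
    rw [this] at hc1
    omega
  -- the boundary states
  obtain ⟨b, -, hc3⟩ := pigeon W₂ (fun x => fun s : Fin (r + 1) => bd P ℓ v₀ x s) univ
    (fun x _ => mem_univ _) hne
  set S := W₂.filter fun x => (fun s : Fin (r + 1) => bd P ℓ v₀ x s) = b with hS
  have hβ : ∀ x ∈ S, ∀ s ≤ r, bd P ℓ v₀ x s = if hs : s ≤ r then b ⟨s, by omega⟩ else v₀ := by
    intro x hx s hs
    rw [dif_pos hs]
    have := congrFun (mem_filter.1 hx).2 ⟨s, by omega⟩
    exact this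
  refine ⟨j, 2 ^ (lam (2 * k) y * u), 2 ^ θ, F, h,
    fun s => if hs : s ≤ r then b ⟨s, by omega⟩ else v₀, S, fun x hx => ?_, ?_, hβ, ?_, ?_⟩
  · exact (mem_filter.1 (mem_filter.1 (mem_filter.1 hx).1).1).1
  · rw [← card_pos]
    by_contra h0
    have h0' : S.card = 0 := by omega
    rw [h0', mul_zero] at hc3
    have := card_pos.2 hne
    omega
  · intro x hx
    have h2 := (mem_filter.1 (mem_filter.1 hx).1).2
    rw [tt_congr (β' := fun s => if hs : s ≤ r then b ⟨s, by omega⟩ else v₀)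
      fun s hs => hβ x hx s hs.le] at h2
    exact h2
  · rw [card_product, card_product, Nat.card_Icc, Nat.card_Icc, card_range] at hc1
    rw [card_univ, Fintype.card_fun, Fintype.card_fin] at hc3
    rw [Nat.card_eq_fintype_card]
    have e1 : (2 * k + 1 - 1) = 2 * k := by omega
    have e2 : 4 * k + 1 - 1 = 4 * k := by omega
    rw [e1, e2] at hc1
    calc W.card ≤ 4 * k * (2 * k * (dx (2 * k) y + 1)) * W₁.card := hc1
      _ ≤ 4 * k * (2 * k * (dx (2 * k) y + 1)) * (2 * W₂.card) := Nat.mul_le_mul_left _ hc2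
      _ ≤ 4 * k * (2 * k * (dx (2 * k) y + 1)) * (2 * (Fintype.card V ^ (r + 1) * S.card)) :=
        Nat.mul_le_mul_left _ (Nat.mul_le_mul_left _ hc3)
      _ = 16 * k ^ 2 * (dx (2 * k) y + 1) * Fintype.card V ^ (r + 1) * S.card := by ring

/-- The counting for a set of inputs with the same answer. -/
theorem core2 (hcon : S_CON) (hselx : S_SELX) (hrec : S_REC) {k y D E n ℓ r K m s e : ℕ}
    (hk : 1 ≤ k) (hn0 : 1 ≤ n) (hl : 1 ≤ ℓ) (hD : D = 2 ^ dx (2 * k) y) (hE : E = 2 ^ y)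
    (hn : 32 * k * E ^ 2 * D ^ 2 * ℓ ≤ n)
    (hrl : r * ℓ ≤ k * n) (hm : 2 * D * m ≤ n) (he : 16 * n < E * D * (e + 1))
    (M : Fin n → (Fin 6 × Fin K → ZMod 2))
    (hrk : ∀ A : Finset (Fin n), m ≤ A.card →
      6 * K ≤ Module.finrank (ZMod 2) (Submodule.span (ZMod 2) (M '' A)) + s)
    (w : (ZMod 2)[X]) (S₀ : Finset (Inp n)) (hS₀ : S₀.Nonempty)
    {V : Type} [Finite V] (P : Mach n V) (v₀ : V)
    (hcov : ∀ x : Inp n, ∀ β : ℕ → V, ∀ i, (tt P ℓ β r x i).Nonempty)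
    (hacc : ∀ x ∈ S₀, ∀ z, bd P ℓ v₀ z r = bd P ℓ v₀ x r → quad M z = w) :
    S₀.card * 2 ^ (3 * K) ≤ 32 * k ^ 2 * (dx (2 * k) y + 1) * Nat.card V ^ (r + 1) *
      (Idx n e).card * 2 ^ (n + s) := by
  classical
  obtain ⟨j, Q, Θ, F, h, β, S, hSW, hSne, hbd, hgood, hcard⟩ := exists_class2 hcon hselx hk hn0
    hl hD hE P v₀ hn (fun x i => hcov x _ i) hrl S₀ hS₀
  have hlb : ∀ x ∈ S, ∀ a : ℕ, Lb P ℓ β (fun s => (F s : ℕ)) (univ.filter fun i => (h i : ℕ) = 0)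
      a x = univ.filter fun i => (h i : ℕ) = 0 ∧ ∀ s ∈ tt P ℓ β r x i, (F s : ℕ) = a := by
    intro x _ a
    unfold Lb
    rw [filter_filter]
  have hD0 : 0 < 2 * D := by
    rw [hD]
    positivity
  have hm' : ∀ c, n ≤ 2 * D * c → m ≤ c := by
    intro c hc
    exact Nat.le_of_mul_le_mul_left (hm.trans hc) hD0
  have hmain := main_count hrec (m := m) (K := K) (s := s) (e := e) (j := j) P ℓ v₀ β
    (fun s => (F s : ℕ)) (univ.filter fun i => (h i : ℕ) = 0) M w hrk S hbd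
    (fun x _ i => hcov x β i) (by
      intro x hx
      obtain ⟨-, -, h3⟩ := hgood x hx
      have h4 : Ex P ℓ β (fun s => (F s : ℕ)) (univ.filter fun i => (h i : ℕ) = 0) j x =
          univ.filter fun i => (h i : ℕ) = 0 ∧ (tt P ℓ β r x i).card ≠ j ∧
            ∀ s ∈ tt P ℓ β r x i, (F s : ℕ) = 0 ∨ (F s : ℕ) = 1 := by
        unfold Ex
        rw [filter_filter]
      rw [h4]
      have h5 := h3.trans_lt he
      have h6 := Nat.lt_of_mul_lt_mul_left h5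
      omega) (by
      intro x hx
      rw [hlb x hx 0]
      exact hm' _ (hgood x hx).1) (by
      intro x hx
      rw [hlb x hx 1]
      exact hm' _ (hgood x hx).2.1) (by
      intro z hz
      obtain ⟨x, hx⟩ := hSne
      exact hacc x (hSW hx) z (by rw [hz, hbd x hx r le_rfl]))
  calc S₀.card * 2 ^ (3 * K) ≤
      (16 * k ^ 2 * (dx (2 * k) y + 1) * Nat.card V ^ (r + 1) * S.card) * 2 ^ (3 * K) :=
        Nat.mul_le_mul_right _ hcard
    _ = (16 * k ^ 2 * (dx (2 * k) y + 1) * Nat.card V ^ (r + 1)) * (S.card * 2 ^ (3 * K)) := by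
      ring
    _ ≤ (16 * k ^ 2 * (dx (2 * k) y + 1) * Nat.card V ^ (r + 1)) *
        (2 * (Idx n e).card * 2 ^ (n + s)) := Nat.mul_le_mul_left _ hmain
    _ = _ := by ring

end Pool.Agent.L0h58.HR
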